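import Pool.Agent.X265.Quad.Fin

/-!
# Automorphism groups of the affine quadric surfaces `x y = z ^ 2 - c`

`C` is any class of groups with the closure properties `ClosedE C` which contains all groups with an
abelian normal subgroup and cyclic quotient. All of this is known for the class of the groups that
satisfy the full Farrell–Jones conjecture.

Let `k` be a commutative domain with `2 ≠ 0` and `c ∈ k`, and let `S` be the surface `x y = z ^ 2 - c`, with
the coordinate ring `SA (QP c) = k[x, y, z] / (x y - (z ^ 2 - c))`. A linear automorphism of `S` is one that
maps the `k`-module spanned by `x`, `y` and `z` onto itself; they form the group `L2 c`. The group `QG c`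
of automorphisms of `S` is generated by the linear automorphisms and the automorphisms with
`x ↦ x`, `z ↦ z + x F(x)`, `F ∈ k[t]`, which exist for all `F` (`triangular` below). If `k` is the field of
complex numbers then `QG c` is the whole automorphism group, by theorems of Danilov and Gizatullin and
of Makar-Limanov (not part of the Lean).

Outline of the proof. Compare the degrees of the coordinates `x` and `y` of points over `k[t]`: a
triangular automorphism with nonconstant `F` maps a point with `deg y ≤ deg x` to a point with
`deg x < deg y`, and a linear automorphism which is not triangular maps the latter back. Hence `QG c` is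
the amalgamated product of the triangular and the linear automorphisms over their intersection, and
`F ↦ F(0)` is a retraction of the triangular automorphisms onto the intersection. So the theorem on
amalgamated products over retracts (`X176.FJ.Retr`) applies. In the surfaces `x y = P(z)` with
`deg P ≥ 3` the linear automorphisms form a solvable group or have such a subgroup of index two; here
they form a group of the type of the orthogonal group in three variables, which is
not solvable in general.
-/

set_option autoImplicit false

namespace Pool.Agent.Results.MP_490288_al.AffineQuadrics

open Pool.Agent.Y110.FJ Pool.Agent.X265.Dan Pool.Agent.X265.Quad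
open scoped Polynomial

/-- Let `C` be a class of groups with the closure properties `ClosedE C` which contains all
abelian-by-cyclic groups, let `k` be a commutative domain with `2 ≠ 0` and `c ∈ k`. The group `QG c` of
automorphisms of the surface `x y = z ^ 2 - c` is in `C` if and only if its subgroup `L2 c` of the linear
automorphisms is in `C`. -/
theorem result (C : ∀ (G : Type) [Group G], Prop) (hC : ClosedE C)
    (hab : ∀ (H : Type) [Group H] (A : Subgroup H) [A.Normal], (∀ a ∈ A, ∀ b ∈ A, a * b = b * a) →
      IsCyclic (H ⧸ A) → C H)
    (k : Type) [CommRing k] [IsDomain k] (h2 : (2 : k) ≠ 0) (c : k) : C ↥(QG c) ↔ C ↥(L2 c) :=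
  c_QG hC hab h2

/-- For every `F` there is an automorphism with `x ↦ x`, `z ↦ z + x F(x)`. -/
theorem triangular (k : Type) [CommRing k] [IsDomain k] (c : k) (F : k[X]) :
    ∃ g : SA (QP c) ≃ₐ[k] SA (QP c), g (gx (QP c)) = gx (QP c) ∧
      g (gz (QP c)) = gz (QP c) + gx (QP c) * Polynomial.aeval (gx (QP c)) F :=
  ⟨tri QP_ne F, th_x F, th_z F⟩

end Pool.Agent.Results.MP_490288_al.AffineQuadrics
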