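import Pool.Agent.X176.FJ.Div

/-!
# Adjunction of roots and divisible acyclic envelopes

`C` is any class of groups with the closure properties `ClosedE C`, all of which are known for the
class of the groups that satisfy the Full Farrell–Jones Conjecture.

`RE X E` is the group which arises from `X` by adjoining, for every pair `(z, k)` in the set `E`, an
element `yE E (z, k)` whose `k + 1`-st power is `z` (and free generators for the other pairs). It is
the union of a tower of amalgamated products over cyclic subgroups. If `X` is in `C`, then so is
`RE X E`, for every set `E` of pairs; `X` embeds in it, and no torsion is created.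

Consequently every group of `C` embeds in a divisible mitotic (hence acyclic) group of `C`, and
torsion-free (countable) groups embed in torsion-free (countable) ones.
-/

set_option autoImplicit false

namespace Pool.Agent.Results.MP_490288_al.DivisibleEnvelopes

open Pool.Agent.Y110.FJ Pool.Agent.X176.FJ

/-- **Adjunction of roots and divisible acyclic envelopes** in classes of Farrell–Jones type. -/
theorem result (C : ∀ (G : Type) [Group G], Prop) (hC : ClosedE C) (G : Type) [Group G] (hG : C G) :
    (∀ E : Set (G × ℕ), C (RE G E) ∧ Function.Injective (xE E) ∧
      (∀ s ∈ E, yE E s ^ (s.2 + 1) = xE E s.1) ∧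
      (IsTF G → (∀ s ∈ E, s.1 ≠ 1) → IsTF (RE G E))) ∧
    ∃ (M : Type) (_ : Group M) (f : G →* M), C M ∧ Function.Injective f ∧ IsDiv M ∧ IsMitotic M ∧
      (IsTF G → IsTF M) ∧ (Countable G → Countable M) :=
  ⟨fun E => ⟨(all_E hC hG E).1, (all_E hC hG E).2.1, fun _ hs => rel_E hs, (all_E hC hG E).2.2⟩,
    exists_div hC G hG⟩

end Pool.Agent.Results.MP_490288_al.DivisibleEnvelopes
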