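import Pool.Agent.X201.FJ.Scat

/-!
# Groups of homeomorphisms of compact spaces and their germs

`C` is any class of groups with the closure properties `ClosedE C`, all of which are known for the
class of the Farrell–Jones groups.

`G` acts faithfully by homeomorphisms on the compact space `X`. `nearTriv G F` is the group of the
elements of `G` which are the identity in some neighbourhood of each point of the set `F`. `InvSet G X`
is the type of the closed `G`-invariant subsets of `X`. `GermGroup G x` is the group of the germs at `x`
of the elements of `G` which fix `x`: the stabilizer of `x` modulo `nearTriv G {x}`.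
-/

set_option autoImplicit false

namespace Pool.Agent.Results.MP_490288_al.ScatteredActions

open Pool.Agent.Y110.FJ Pool.Agent.X201.FJ

/-- Let `C` be a class of groups with the closure properties `ClosedE C`. Let `G` be a group of
homeomorphisms of the compact space `X` and `K` a closed `G`-invariant set such that `X ∖ K` is
scattered: every nonempty set `S` disjoint from `K` has a point `x` with `U ∩ S = {x}` for some open `U`.
If the group of germs of `G` at `x` is in `C` for every `x` outside `K`, and if the group of germs of `G`
along `K`, the quotient of `G` by the subgroup of the elements which are the identity near `K`, is in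
`C`, then `G` is in `C`. -/
theorem result (C : ∀ (G : Type) [Group G], Prop) (hC : ClosedE C) (G X : Type) [Group G]
    [TopologicalSpace X] [CompactSpace X] [MulAction G X] [ContinuousConstSMul G X]
    [FaithfulSMul G X] (K : InvSet G X)
    (hs : ∀ S : Set X, S.Nonempty → Disjoint S K.carrier →
      ∃ x ∈ S, ∃ U : Set X, IsOpen U ∧ U ∩ S = {x})
    (hgerm : ∀ x ∉ K.carrier, C (GermGroup G x)) (hK : C (G ⧸ nearTriv G K.carrier)) : C G :=
  scattered hC K hs hgerm hK

/-- Special case: a group of homeomorphisms of a compact scattered space is in `C` if all of its
groups of germs are in `C`. -/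
theorem compact_scattered (C : ∀ (G : Type) [Group G], Prop) (hC : ClosedE C) (G X : Type) [Group G]
    [TopologicalSpace X] [CompactSpace X] [MulAction G X] [ContinuousConstSMul G X]
    [FaithfulSMul G X]
    (hs : ∀ S : Set X, S.Nonempty → ∃ x ∈ S, ∃ U : Set X, IsOpen U ∧ U ∩ S = {x})
    (hgerm : ∀ x : X, C (GermGroup G x)) : C G := by
  obtain ⟨K, hK⟩ : ∃ K : InvSet G X, K.carrier = ∅ := ⟨⟨∅, isClosed_empty, fun _ _ h => h⟩, rfl⟩
  refine result C hC G X K (fun S h _ => hs S h) (fun x _ => hgerm x) ?_
  have h1 : nearTriv G K.carrier = ⊤ := by
    rw [eq_top_iff]
    intro g _ x hx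
    rw [hK] at hx
    exact absurd hx (Set.notMem_empty x)
  have h2 : Subsingleton (G ⧸ nearTriv G K.carrier) := by
    rw [h1]
    exact QuotientGroup.subsingleton_quotient_top
  have h3 : Finite (G ⧸ nearTriv G K.carrier) := Finite.of_subsingleton
  exact Pool.Agent.Y812.SS.C_finite hC.base (G ⧸ nearTriv G K.carrier)

end Pool.Agent.Results.MP_490288_al.ScatteredActions
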