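import Pool.Agent.X176.FJ.TwoGen

/-!
# Embeddings in groups with two generators

`C` is any class of groups with the closure properties `ClosedE C`, all of which are known for the
class of the groups that satisfy the Full Farrell–Jones conjecture.

Every countable group in `C` embeds in a group with two generators which is also in `C`, and
torsion-free groups embed in torsion-free ones. The group is constructed explicitly, by two wreath
products: it is generated by the shift and one function on the integers with values in a group of
functions on the integers.
-/

set_option autoImplicit false

namespace Pool.Agent.Results.MP_490288_al.TwoGeneratorEmbeddings

open Pool.Agent.Y110.FJ Pool.Agent.X176.FJ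

/-- Let `C` be a class of groups with the closure properties `ClosedE C`. Every countable group `G` in `C`
embeds in a group `M` in `C` which is generated by two elements; if `G` is torsion-free, then so is
`M`. -/
theorem result (C : ∀ (G : Type) [Group G], Prop) (hC : ClosedE C) (G : Type) [Group G]
    [Countable G] (hG : C G) :
    ∃ (M : Type) (_ : Group M) (x y : M) (f : G →* M), C M ∧ Subgroup.closure {x, y} = ⊤ ∧
      Function.Injective f ∧ (IsTF G → IsTF M) :=
  two_gen hC G hG

end Pool.Agent.Results.MP_490288_al.TwoGeneratorEmbeddings
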